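import Pool.Agent.H31.Todd

open Pool.Agent.H31.Todd

universe u v

theorem Pool.Agent.Results.MP_5e9a16_gt.Main.result :
    ∀ (I : Type u) (H : I → Type v) [∀ i, Group (H i)] [∀ i, TopologicalSpace (H i)]
      [∀ i, IsTopologicalGroup (H i)] [∀ i, TopologicalSpace.MetrizableSpace (H i)]
      (G : Subgroup (∀ i, H i)), Dense (G : Set (∀ i, H i)) → ToddPseudocomplete G →
      ∀ j, TopologicalSpace.IsCompletelyMetrizableSpace (H j) :=
  fun _ _ _ _ _ _ G hG hT j => main G hG hT j
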